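import Pool.Agent.Helper99.MKV.GoalsC

/-! # MKV, packet SQS: sum over the scales -/

open Finset

namespace Pool.Agent.Helper81.MKV

open Pool.Agent.Helper99.MKV Pool.Agent.Helper99.EXC Pool.Agent.Helper99.ERW

variable {E ι : Type} [Fintype ι]

/-- Jensen's inequality. -/
lemma Ex_sq (U : Sys E ι) (hU : U.Ok) (Λ : Finset (Site 2)) (N : ℕ) (F : MSt E → ℝ) (s0 : MSt E) :
    (Ex U Λ N F s0) ^ 2 ≤ Ex U Λ N (fun t => F t ^ 2) s0 := by
  set c := Ex U Λ N F s0 with hc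
  have h1 : 0 ≤ Ex U Λ N (fun t => (F t ^ 2 - 2 * c * F t) + c ^ 2) s0 := by
    refine Ex_nonneg Λ hU N (fun t => ?_) s0
    nlinarith [sq_nonneg (F t - c)]
  rw [Ex_add Λ N (fun t => F t ^ 2 - 2 * c * F t) (fun _ => c ^ 2)] at h1
  rw [Ex_sub Λ N (fun t => F t ^ 2) (fun t => 2 * c * F t), Ex_smul Λ N (2 * c) F,
    Ex_const Λ hU N] at h1
  simp only at h1
  rw [← hc] at h1
  nlinarith

lemma VV_abs (g : Site 2 → E → ℝ) (v : Site 2 → ℝ) (D : Finset (Site 2)) (t : MSt E)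
    (A B C0 : ℝ) (P : ℝ) (hP : 0 < P) (hA : 0 ≤ A) (hv : ∀ z, |v z| ≤ A / P)
    (hg : ∀ z e, |g z e| ≤ B) (hcard : (D.card : ℝ) ≤ C0 * P) : |VV g D v t| ≤ C0 * A * B := by
  have hB : 0 ≤ B := (abs_nonneg _).trans (hg 0 (t.2 0))
  unfold VV
  calc |∑ z ∈ D, v z * g z (t.2 z)| ≤ ∑ z ∈ D, |v z * g z (t.2 z)| :=
        Finset.abs_sum_le_sum_abs _ _
    _ ≤ ∑ _z ∈ D, A / P * B := by
        refine Finset.sum_le_sum fun z _ => ?_
        rw [abs_mul]
        exact mul_le_mul (hv z) (hg _ _) (abs_nonneg _) (by positivity)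
    _ = D.card * (A / P * B) := by rw [Finset.sum_const, nsmul_eq_mul]
    _ ≤ (C0 * P) * (A / P * B) := mul_le_mul_of_nonneg_right hcard (by positivity)
    _ = C0 * A * B := by field_simp

lemma VV_diff (g : Site 2 → E → ℝ) (v : Site 2 → ℝ) (D : Finset (Site 2)) (t : MSt E)
    (e0 : Site 2 → E) (hf : {z | t.2 z ≠ e0 z}.Finite) (A B : ℝ) (hA : 0 ≤ A)
    (hv : ∀ z, |v z| ≤ A) (hg : ∀ z e, |g z e| ≤ B) :
    |VV g D v t - VV g D v (0, e0)| ≤ hf.toFinset.card * (A * (2 * B)) := by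
  classical
  have hB : 0 ≤ B := (abs_nonneg _).trans (hg 0 (t.2 0))
  unfold VV
  rw [← Finset.sum_sub_distrib]
  calc |∑ z ∈ D, (v z * g z (t.2 z) - v z * g z (e0 z))|
      ≤ ∑ z ∈ D, |v z * g z (t.2 z) - v z * g z (e0 z)| := Finset.abs_sum_le_sum_abs _ _
    _ ≤ ∑ z ∈ D, if z ∈ hf.toFinset then A * (2 * B) else 0 := by
        refine Finset.sum_le_sum fun z _ => ?_
        by_cases hz : t.2 z = e0 z
        · have : z ∉ hf.toFinset := by simp [hz]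
          rw [if_neg this, hz]; simp
        · have : z ∈ hf.toFinset := by simp [hz]
          rw [if_pos this, ← mul_sub, abs_mul]
          refine mul_le_mul (hv z) ?_ (abs_nonneg _) hA
          calc |g z (t.2 z) - g z (e0 z)| ≤ |g z (t.2 z)| + |g z (e0 z)| := abs_sub _ _
            _ ≤ 2 * B := by linarith [hg z (t.2 z), hg z (e0 z)]
    _ = ((D.filter fun z => z ∈ hf.toFinset).card : ℝ) * (A * (2 * B)) := by
        rw [← Finset.sum_filter, Finset.sum_const, nsmul_eq_mul]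
    _ ≤ hf.toFinset.card * (A * (2 * B)) := by
        refine mul_le_mul_of_nonneg_right ?_ (by positivity)
        exact_mod_cast Finset.card_le_card fun z hz => (Finset.mem_filter.1 hz).2

lemma geo (s : ℕ) : ∑ k ∈ range s, (1 / 4 ^ k : ℝ) ≤ 2 - 2 * (1 / 4 ^ s) := by
  induction s with
  | zero => simp
  | succ s ih =>
    rw [Finset.sum_range_succ, pow_succ]
    have h : (0 : ℝ) < 1 / 4 ^ s := by positivity
    have h2 : (1 : ℝ) / (4 ^ s * 4) = 1 / 4 ^ s / 4 := by rw [div_div]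
    rw [h2]
    linarith

lemma geo' (k1 s : ℕ) : ∑ k ∈ Ico k1 s, (1 / 4 ^ k : ℝ) ≤ 2 := by
  calc ∑ k ∈ Ico k1 s, (1 / 4 ^ k : ℝ) ≤ ∑ k ∈ range s, (1 / 4 ^ k : ℝ) := by
        refine Finset.sum_le_sum_of_subset_of_nonneg ?_ fun _ _ _ => by positivity
        intro k hk
        rw [Finset.mem_Ico] at hk
        exact Finset.mem_range.2 hk.2
    _ ≤ 2 - 2 * (1 / 4 ^ s) := geo s
    _ ≤ 2 := by
        have : (0 : ℝ) < 1 / 4 ^ s := by positivity
        linarith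

lemma two_pow_ge (k : ℕ) : (k : ℝ) ^ 2 ≤ 2 * 2 ^ k := by
  have h : k ^ 2 ≤ 2 * 2 ^ k := by
    induction k with
    | zero => simp
    | succ k ih =>
      have h1 : k < 2 ^ k := Nat.lt_two_pow_self
      rw [pow_succ 2 k]
      nlinarith
  exact_mod_cast h

lemma bad_card (k1 s m n : ℕ) :
    ((Ico k1 s).filter fun k => k < m ∨ s < k + n).card ≤ m + n := by
  calc ((Ico k1 s).filter fun k => k < m ∨ s < k + n).card
      ≤ (range m ∪ Ico (s - n) s).card := by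
        refine Finset.card_le_card fun k hk => ?_
        rw [Finset.mem_filter, Finset.mem_Ico] at hk
        rw [Finset.mem_union, Finset.mem_range, Finset.mem_Ico]
        omega
    _ ≤ (range m).card + (Ico (s - n) s).card := Finset.card_union_le _ _
    _ ≤ m + n := by
        rw [Finset.card_range, Nat.card_Ico]
        omega

/-- The bound of the second moment for a middle scale. -/
lemma mid (s k n C2 η' X δ P : ℝ) (hδ : 0 < δ) (hs : 1 ≤ s) (hk : δ * s ≤ k) (hn : 0 ≤ n)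
    (hC2 : 0 ≤ C2) (hX : 0 ≤ η' + X) (hP : k ^ 2 ≤ 2 * P) :
    (s + 1) / k ^ 2 * (n + C2 * k * (η' + X)) + C2 * (s + 1) ^ 2 / (k * P) ≤
      (2 * n / δ ^ 2 + 8 * C2 / δ ^ 3) / s + 2 * C2 / δ * (η' + X) := by
  have hs0 : 0 < s := by linarith
  have hds : 0 < δ * s := by positivity
  have hk0 : 0 < k := by linarith
  have hk2 : (δ * s) ^ 2 ≤ k ^ 2 := pow_le_pow_left₀ hds.le hk 2
  have hP0 : 0 < P := by nlinarith [pow_pos hk0 2]
  have h1 : (s + 1) / k ^ 2 ≤ 2 / (δ ^ 2 * s) := by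
    rw [div_le_div_iff₀ (by positivity) (by positivity)]
    have : (s + 1) * (δ ^ 2 * s) ≤ 2 * s * (δ ^ 2 * s) :=
      mul_le_mul_of_nonneg_right (by linarith) (by positivity)
    nlinarith
  have h2 : (s + 1) / k ≤ 2 / δ := by
    rw [div_le_div_iff₀ hk0 hδ]
    nlinarith
  have h3 : (s + 1) ^ 2 / (k * P) ≤ 8 / (δ ^ 3 * s) := by
    rw [div_le_div_iff₀ (by positivity) (by positivity)]
    have ha : (s + 1) ^ 2 ≤ (2 * s) ^ 2 := pow_le_pow_left₀ (by linarith) (by linarith) 2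
    have hb : δ * s * (δ * s) ^ 2 ≤ k * k ^ 2 :=
      mul_le_mul hk hk2 (by positivity) hk0.le
    have hc : k * k ^ 2 ≤ k * (2 * P) := mul_le_mul_of_nonneg_left hP hk0.le
    have hd : (s + 1) ^ 2 * (δ ^ 3 * s) ≤ (2 * s) ^ 2 * (δ ^ 3 * s) :=
      mul_le_mul_of_nonneg_right ha (by positivity)
    nlinarith
  have e1 : (s + 1) / k ^ 2 * (n + C2 * k * (η' + X)) + C2 * (s + 1) ^ 2 / (k * P) =
      (s + 1) / k ^ 2 * n + (s + 1) / k * (C2 * (η' + X)) + C2 * ((s + 1) ^ 2 / (k * P)) := by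
    field_simp
  have e2 : (2 * n / δ ^ 2 + 8 * C2 / δ ^ 3) / s + 2 * C2 / δ * (η' + X) =
      2 / (δ ^ 2 * s) * n + 2 / δ * (C2 * (η' + X)) + C2 * (8 / (δ ^ 3 * s)) := by
    field_simp
    ring
  rw [e1, e2]
  have a1 := mul_le_mul_of_nonneg_right h1 hn
  have a2 := mul_le_mul_of_nonneg_right h2 (mul_nonneg hC2 hX)
  have a3 := mul_le_mul_of_nonneg_left h3 hC2
  linarith

/-- `|y| ≤ θ + y² / θ`. -/
lemma abs_le_sq (y θ M : ℝ) (hθ : 0 < θ) (hM : y ^ 2 ≤ M) : |y| ≤ θ + 1 / θ * M := by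
  have hM0 : 0 ≤ M := (sq_nonneg y).trans hM
  by_cases h : |y| ≤ θ
  · have : 0 ≤ 1 / θ * M := by positivity
    linarith
  · push Not at h
    have h1 : |y| ≤ 1 / θ * M := by
      rw [one_div, inv_mul_eq_div, le_div_iff₀ hθ]
      have : |y| * θ ≤ |y| * |y| := mul_le_mul_of_nonneg_left h.le (abs_nonneg _)
      have h2 : |y| * |y| = y ^ 2 := by rw [← sq, sq_abs]
      linarith
    linarith

/-- **SQS.** -/
theorem SQS (hSMS : SMS_stmt) (hSQM : SQM_stmt) : SQS_stmt := by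
  intro κ C b B hκ hC hb hB ε hε
  obtain ⟨C0, hC01, hcard, -⟩ := hSMS b hb
  obtain ⟨C2, hC2, hq⟩ := hSQM κ C b B hκ hC hb hB
  set C4 : ℝ := C0 * C * B with hC4
  have hC4p : 0 < C4 := by positivity
  set θ : ℝ := ε / 8 with hθ
  have hθ0 : 0 < θ := by positivity
  set δ : ℝ := ε / (16 * C4) with hδ
  have hδ0 : 0 < δ := by positivity
  have hδ' : 2 * C4 * δ = ε / 8 := by rw [hδ]; field_simp; ring
  set Q : ℝ := 1 / θ * (2 * C2 / δ) with hQ
  have hQ0 : 0 ≤ Q := by positivity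
  set η' : ℝ := ε / 8 / (Q + 1) with hη'
  have hη'0 : 0 < η' := by positivity
  have hη'1 : Q * η' ≤ ε / 8 := by
    rw [hη', mul_div_assoc', div_le_iff₀ (by positivity)]
    nlinarith
  set A1 : ℝ := 1 + 1 / θ * (C2 * C4) with hA1
  have hA10 : 0 < A1 := by positivity
  set η : ℝ := ε / 8 / (A1 + Q * (1 + C4)) with hη
  have hAQ : 0 < A1 + Q * (1 + C4) := by positivity
  have hη0 : 0 < η := by positivity
  have hη1 : (A1 + Q * (1 + C4)) * η = ε / 8 := by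
    rw [hη]; field_simp
  refine ⟨η, hη0, ?_⟩
  intro E ι _ U a BR S R T ep φ Φ k1 hD hScx hPoi e0 s0 hfin
  obtain ⟨n, hn⟩ := hq η' BR hη'0 hPoi.br
  have hU := hD.ok
  -- bounds
  have hck : ∀ k, k1 ≤ k → ∀ t, |ck Φ S b k t| ≤ C4 := fun k hkk t =>
    VV_abs S (hk Φ k) (Bx b k) t C B C0 (4 ^ k) (by positivity) (by linarith) (hScx.h1 k hkk)
      hD.bd (hcard k)
  have hwk : ∀ k, k1 ≤ k → ∀ t : MSt E, |VV T (Bx b k) (hk Φ k) t| ≤ C4 := fun k hkk t =>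
    VV_abs T (hk Φ k) (Bx b k) t C B C0 (4 ^ k) (by positivity) (by linarith) (hScx.h1 k hkk)
      hPoi.bT (hcard k)
  set F0 : ℝ := (hfin.toFinset.card : ℝ) with hF0
  have hF00 : 0 ≤ F0 := by positivity
  set F1 : ℝ := F0 * (C * (2 * B)) * 2 with hF1
  have hF10 : 0 ≤ F1 := by positivity
  have hdiff : ∀ (g : Site 2 → E → ℝ), (∀ z e, |g z e| ≤ B) → ∀ s : ℕ,
      ∑ k ∈ Ico k1 s, |VV g (Bx b k) (hk Φ k) s0| ≤
        ∑ k ∈ Ico k1 s, |VV g (Bx b k) (hk Φ k) (0, e0)| + F1 := by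
    intro g hg s
    have h1 : ∀ k ∈ Ico k1 s, |VV g (Bx b k) (hk Φ k) s0| ≤
        |VV g (Bx b k) (hk Φ k) (0, e0)| + F0 * (C * (2 * B)) * (1 / 4 ^ k) := by
      intro k hk'
      rw [Finset.mem_Ico] at hk'
      have h2 := VV_diff g (hk Φ k) (Bx b k) s0 e0 hfin (C / 4 ^ k) B (by positivity)
        (hScx.h1 k hk'.1) hg
      have h3 : (hfin.toFinset.card : ℝ) * (C / 4 ^ k * (2 * B)) =
          F0 * (C * (2 * B)) * (1 / 4 ^ k) := by rw [hF0]; ring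
      rw [h3] at h2
      have h4 := abs_sub_abs_le_abs_sub (VV g (Bx b k) (hk Φ k) s0)
        (VV g (Bx b k) (hk Φ k) (0, e0))
      linarith
    calc ∑ k ∈ Ico k1 s, |VV g (Bx b k) (hk Φ k) s0|
        ≤ ∑ k ∈ Ico k1 s, (|VV g (Bx b k) (hk Φ k) (0, e0)| +
            F0 * (C * (2 * B)) * (1 / 4 ^ k)) := Finset.sum_le_sum h1
      _ = ∑ k ∈ Ico k1 s, |VV g (Bx b k) (hk Φ k) (0, e0)| +
            F0 * (C * (2 * B)) * ∑ k ∈ Ico k1 s, (1 / 4 ^ k : ℝ) := by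
          rw [Finset.sum_add_distrib, Finset.mul_sum]
      _ ≤ _ := by
          rw [hF1]
          have := mul_le_mul_of_nonneg_left (geo' k1 s)
            (show 0 ≤ F0 * (C * (2 * B)) by positivity)
          linarith
  set X0 : ℝ := 2 * n / δ ^ 2 + 8 * C2 / δ ^ 3 with hX0
  have hX00 : 0 ≤ X0 := by positivity
  set K : ℝ := A1 * F1 + 1 / θ * X0 + Q * (C4 * F1) + 2 * C4 * (k1 + 2 * n + 2) with hK
  refine ⟨⌈2 * K / ε⌉₊ + 1, ?_⟩
  intro s hs hsum N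
  have hs1 : 1 ≤ s := by omega
  have hs1' : (1 : ℝ) ≤ s := by exact_mod_cast hs1
  have hKs : K ≤ ε / 2 * s := by
    have h1 : 2 * K / ε ≤ s := by
      calc 2 * K / ε ≤ ⌈2 * K / ε⌉₊ := Nat.le_ceil _
        _ ≤ s := by exact_mod_cast (by omega : ⌈2 * K / ε⌉₊ ≤ s)
    rw [div_le_iff₀ hε] at h1
    linarith
  -- the three sums
  have hnn : ∀ k, 0 ≤ ∑ x ∈ Bx b k, |hk Φ k x| * ep x := fun k =>
    Finset.sum_nonneg fun x _ => mul_nonneg (abs_nonneg _) (hPoi.e0 x)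
  rw [Finset.sum_add_distrib, Finset.sum_add_distrib] at hsum
  have hc0 : 0 ≤ ∑ k ∈ Ico k1 s, |ck Φ S b k (0, e0)| :=
    Finset.sum_nonneg fun _ _ => abs_nonneg _
  have hw0 : 0 ≤ ∑ k ∈ Ico k1 s, |VV T (Bx b k) (hk Φ k) (0, e0)| :=
    Finset.sum_nonneg fun _ _ => abs_nonneg _
  have he0 : 0 ≤ ∑ k ∈ Ico k1 s, ∑ x ∈ Bx b k, |hk Φ k x| * ep x :=
    Finset.sum_nonneg fun k _ => hnn k
  have hc1 : ∑ k ∈ Ico k1 s, |ck Φ S b k s0| ≤ η * s + F1 := by
    have := hdiff S hD.bd s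
    have h2 : ∑ k ∈ Ico k1 s, |ck Φ S b k (0, e0)| ≤ η * s := by linarith
    unfold ck at h2 ⊢
    linarith
  have hw1 : ∑ k ∈ Ico k1 s, |VV T (Bx b k) (hk Φ k) s0| ≤ η * s + F1 := by
    have := hdiff T hPoi.bT s
    linarith
  have he1 : ∑ k ∈ Ico k1 s, ∑ x ∈ Bx b k, |hk Φ k x| * ep x ≤ η * s := by linarith
  -- the bound for one scale
  set m : ℕ := max ⌈δ * s⌉₊ (k1 + n + 1) with hm
  have hone : ∀ k ∈ Ico k1 s,
      |Ex U (Bx b (s + 1)) N (ck Φ S b k) s0 - ck Φ S b k s0| ≤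
        A1 * |ck Φ S b k s0| + (θ + 1 / θ * X0 / s + Q * η') +
          Q * (∑ x ∈ Bx b k, |hk Φ k x| * ep x) + Q * C4 * |VV T (Bx b k) (hk Φ k) s0| +
          (if k < m ∨ s < k + n then 2 * C4 else 0) := by
    intro k hk'
    rw [Finset.mem_Ico] at hk'
    have hb1 : |Ex U (Bx b (s + 1)) N (ck Φ S b k) s0| ≤ C4 :=
      Ex_abs_le _ hU N (hck k hk'.1) s0
    have hb2 : |ck Φ S b k s0| ≤ C4 := hck k hk'.1 s0
    have hb3 : |Ex U (Bx b (s + 1)) N (ck Φ S b k) s0 - ck Φ S b k s0| ≤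
        |Ex U (Bx b (s + 1)) N (ck Φ S b k) s0| + |ck Φ S b k s0| := abs_sub _ _
    have p1 : 0 ≤ A1 * |ck Φ S b k s0| := mul_nonneg hA10.le (abs_nonneg _)
    have p2 : 0 ≤ θ + 1 / θ * X0 / s + Q * η' := by positivity
    have p3 : 0 ≤ Q * (∑ x ∈ Bx b k, |hk Φ k x| * ep x) := mul_nonneg hQ0 (hnn k)
    have p4 : 0 ≤ Q * C4 * |VV T (Bx b k) (hk Φ k) s0| :=
      mul_nonneg (mul_nonneg hQ0 hC4p.le) (abs_nonneg _)
    split_ifs with hbad
    · linarith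
    · push Not at hbad
      have hm1 : δ * s ≤ k := (Nat.le_ceil _).trans (by
        exact_mod_cast (le_max_left _ _).trans hbad.1)
      have hm2 : k1 + n + 1 ≤ k := (le_max_right _ _).trans hbad.1
      have hS := hn E ι U a S R T ep φ Φ k1 hD hScx hPoi k s (by omega) (by omega) hbad.2 N s0
      have hJ := Ex_sq U hU (Bx b (s + 1)) N (ck Φ S b k) s0
      have hX : 0 ≤ η' + (∑ x ∈ Bx b k, |hk Φ k x| * ep x +
          VV T (Bx b k) (hk Φ k) s0 ^ 2) := by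
        have := hnn k
        positivity
      have hmid := mid (s : ℝ) (k : ℝ) (n : ℝ) C2 η' (∑ x ∈ Bx b k, |hk Φ k x| * ep x +
          VV T (Bx b k) (hk Φ k) s0 ^ 2) δ (2 ^ k) hδ0 hs1' hm1 (Nat.cast_nonneg _) hC2 hX
          (two_pow_ge k)
      rw [← hX0] at hmid
      have hw2 : VV T (Bx b k) (hk Φ k) s0 ^ 2 ≤ C4 * |VV T (Bx b k) (hk Φ k) s0| := by
        rw [← sq_abs, sq]
        exact mul_le_mul_of_nonneg_right (hwk k hk'.1 s0) (abs_nonneg _)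
      have hc2 : ck Φ S b k s0 ^ 2 ≤ C4 * |ck Φ S b k s0| := by
        rw [← sq_abs, sq]
        exact mul_le_mul_of_nonneg_right hb2 (abs_nonneg _)
      have hM : (Ex U (Bx b (s + 1)) N (ck Φ S b k) s0) ^ 2 ≤
          C2 * (C4 * |ck Φ S b k s0|) + X0 / s + 2 * C2 / δ * (η' +
            (∑ x ∈ Bx b k, |hk Φ k x| * ep x + C4 * |VV T (Bx b k) (hk Φ k) s0|)) := by
        have h1 := mul_le_mul_of_nonneg_left hc2 hC2
        have h2 : 2 * C2 / δ * (η' + (∑ x ∈ Bx b k, |hk Φ k x| * ep x +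
            VV T (Bx b k) (hk Φ k) s0 ^ 2)) ≤ 2 * C2 / δ * (η' +
            (∑ x ∈ Bx b k, |hk Φ k x| * ep x + C4 * |VV T (Bx b k) (hk Φ k) s0|)) :=
          mul_le_mul_of_nonneg_left (by linarith) (by positivity)
        have h3 : η' + ∑ x ∈ Bx b k, |hk Φ k x| * ep x + VV T (Bx b k) (hk Φ k) s0 ^ 2 =
            η' + (∑ x ∈ Bx b k, |hk Φ k x| * ep x + VV T (Bx b k) (hk Φ k) s0 ^ 2) := by ring
        rw [h3] at hS
        linarith
      have hfin' := abs_le_sq _ θ _ hθ0 hM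
      have e1 : 1 / θ * (C2 * (C4 * |ck Φ S b k s0|) + X0 / s + 2 * C2 / δ * (η' +
            (∑ x ∈ Bx b k, |hk Φ k x| * ep x + C4 * |VV T (Bx b k) (hk Φ k) s0|))) =
          (1 / θ * (C2 * C4)) * |ck Φ S b k s0| + 1 / θ * X0 / s + Q * η' +
            Q * (∑ x ∈ Bx b k, |hk Φ k x| * ep x) + Q * C4 * |VV T (Bx b k) (hk Φ k) s0| := by
        rw [hQ]; ring
      rw [e1] at hfin'
      rw [hA1]
      linarith
  -- summation
  have hcardI : ((Ico k1 s).card : ℝ) ≤ s := by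
    rw [Nat.card_Ico]
    exact_mod_cast Nat.sub_le _ _
  have hbadc : ∑ k ∈ Ico k1 s, (if k < m ∨ s < k + n then 2 * C4 else 0) ≤
      2 * C4 * (δ * s + (k1 + 2 * n + 2)) := by
    rw [← Finset.sum_filter, Finset.sum_const, nsmul_eq_mul]
    have h1 := bad_card k1 s m n
    have h2 : m ≤ ⌈δ * s⌉₊ + (k1 + n + 1) := by
      rw [hm]; omega
    have h3 : (⌈δ * s⌉₊ : ℝ) ≤ δ * s + 1 := (Nat.ceil_lt_add_one (by positivity)).le
    have h4 : ((((Ico k1 s).filter fun k => k < m ∨ s < k + n).card : ℕ) : ℝ) ≤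
        (⌈δ * s⌉₊ : ℝ) + (k1 + n + 1) + n := by
      have : ((Ico k1 s).filter fun k => k < m ∨ s < k + n).card ≤
          ⌈δ * s⌉₊ + (k1 + n + 1) + n := by omega
      exact_mod_cast this
    have h5 : ((((Ico k1 s).filter fun k => k < m ∨ s < k + n).card : ℕ) : ℝ) ≤
        δ * s + (k1 + 2 * n + 2) := by linarith
    have := mul_le_mul_of_nonneg_right h5 (show 0 ≤ 2 * C4 by positivity)
    linarith
  have hp2 : 0 ≤ θ + 1 / θ * X0 / s + Q * η' := by positivity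
  calc ∑ k ∈ Ico k1 s, |Ex U (Bx b (s + 1)) N (ck Φ S b k) s0 - ck Φ S b k s0|
      ≤ ∑ k ∈ Ico k1 s, (A1 * |ck Φ S b k s0| + (θ + 1 / θ * X0 / s + Q * η') +
          Q * (∑ x ∈ Bx b k, |hk Φ k x| * ep x) + Q * C4 * |VV T (Bx b k) (hk Φ k) s0| +
          (if k < m ∨ s < k + n then 2 * C4 else 0)) := Finset.sum_le_sum hone
    _ = A1 * ∑ k ∈ Ico k1 s, |ck Φ S b k s0| +
          ((Ico k1 s).card : ℝ) * (θ + 1 / θ * X0 / s + Q * η') +
          Q * (∑ k ∈ Ico k1 s, ∑ x ∈ Bx b k, |hk Φ k x| * ep x) +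
          Q * C4 * (∑ k ∈ Ico k1 s, |VV T (Bx b k) (hk Φ k) s0|) +
          ∑ k ∈ Ico k1 s, (if k < m ∨ s < k + n then 2 * C4 else 0) := by
        simp only [Finset.sum_add_distrib, Finset.mul_sum, Finset.sum_const, nsmul_eq_mul]
        ring
    _ ≤ A1 * (η * s + F1) + s * (θ + 1 / θ * X0 / s + Q * η') + Q * (η * s) +
          Q * C4 * (η * s + F1) + 2 * C4 * (δ * s + (k1 + 2 * n + 2)) := by
        have a1 := mul_le_mul_of_nonneg_left hc1 hA10.le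
        have a2 := mul_le_mul_of_nonneg_right hcardI hp2
        have a3 := mul_le_mul_of_nonneg_left he1 hQ0
        have a4 := mul_le_mul_of_nonneg_left hw1 (mul_nonneg hQ0 hC4p.le)
        linarith
    _ = s * ((A1 + Q * (1 + C4)) * η + θ + Q * η' + 2 * C4 * δ) + K := by
        have hsne : (s : ℝ) ≠ 0 := by linarith
        have hx : (s : ℝ) * (1 / θ * X0 / s) = 1 / θ * X0 := by
          rw [mul_div_assoc', mul_div_cancel_left₀ _ hsne]
        have hy : (s : ℝ) * (θ + 1 / θ * X0 / s + Q * η') =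
            s * θ + 1 / θ * X0 + s * (Q * η') := by linear_combination hx
        rw [hy, hK]
        ring
    _ ≤ s * (ε / 8 + ε / 8 + ε / 8 + ε / 8) + ε / 2 * s := by
        rw [hη1, hδ', hθ]
        have := mul_le_mul_of_nonneg_left hη'1 (show (0 : ℝ) ≤ s by linarith)
        linarith
    _ = ε * s := by ring

end Pool.Agent.Helper81.MKV
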